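import Mathlib

open Matrix

namespace Pool.Agent.Work.MP_67c61c_pr

/-- Irreducible and aperiodic row-stochastic matrices: nonnegative entries, rows summing to `1`,
every state reaches every state, and for every state `i` the only common divisor of the return
times `{n ≥ 1 : (M ^ n) i i > 0}` is `1`. -/
structure IsErgodic {d : ℕ} (M : Matrix (Fin d) (Fin d) ℝ) : Prop where
  nonneg : ∀ i j, 0 ≤ M i j
  row_sum : ∀ i, ∑ j, M i j = 1
  irreducible : ∀ i j, ∃ n : ℕ, 1 ≤ n ∧ 0 < (M ^ n) i j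
  aperiodic : ∀ i, ∀ p : ℕ, (∀ n : ℕ, 1 ≤ n → 0 < (M ^ n) i i → p ∣ n) → p = 1

/-- `π` is a stationary probability distribution of `M`. -/
structure IsStationary {d : ℕ} (π : Fin d → ℝ) (M : Matrix (Fin d) (Fin d) ℝ) : Prop where
  nonneg : ∀ i, 0 ≤ π i
  sum_one : ∑ i, π i = 1
  invariant : ∀ j, ∑ i, π i * M i j = π j

/-- The time reversal `M*(i,j) = π(j) M(j,i) / π(i)`. -/
noncomputable def timeReversal {d : ℕ} (π : Fin d → ℝ) (M : Matrix (Fin d) (Fin d) ℝ) :
    Matrix (Fin d) (Fin d) ℝ :=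
  Matrix.of fun i j => π j * M j i / π i

/-- The multiplicative reversiblization `M† = M* M`. -/
noncomputable def mulRev {d : ℕ} (π : Fin d → ℝ) (M : Matrix (Fin d) (Fin d) ℝ) :
    Matrix (Fin d) (Fin d) ℝ :=
  timeReversal π M * M

/-- The second largest eigenvalue: the second entry (index `1`) of the list of all real roots of
the characteristic polynomial, with multiplicity, in decreasing order. -/
noncomputable def secondEigenvalue {d : ℕ} (A : Matrix (Fin d) (Fin d) ℝ) : ℝ :=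
  (A.charpoly.roots.sort (· ≥ ·)).getD 1 0

/-- The spectral gap `γ(A) = 1 - λ₂(A)`. -/
noncomputable def spectralGap {d : ℕ} (A : Matrix (Fin d) (Fin d) ℝ) : ℝ :=
  1 - secondEigenvalue A

/-- The set of the numbers `γ((M^k)†)/k`, `k ≥ 1`, whose maximum is the pseudo spectral gap. -/
def gapSet {d : ℕ} (π : Fin d → ℝ) (M : Matrix (Fin d) (Fin d) ℝ) : Set ℝ :=
  {x | ∃ k : ℕ, 1 ≤ k ∧ x = spectralGap (mulRev π (M ^ k)) / k}

/-- The pseudo spectral gap `γ_ps(M) = max_{k ≥ 1} γ((M^k)†)/k`. -/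
noncomputable def pseudoGap {d : ℕ} (π : Fin d → ℝ) (M : Matrix (Fin d) (Fin d) ℝ) : ℝ :=
  sSup (gapSet π M)

/-- The `α`-lazy version `L_α(M) = α I + (1 - α) M`. -/
def lazyChain {d : ℕ} (α : ℝ) (M : Matrix (Fin d) (Fin d) ℝ) : Matrix (Fin d) (Fin d) ℝ :=
  α • (1 : Matrix (Fin d) (Fin d) ℝ) + (1 - α) • M

end Pool.Agent.Work.MP_67c61c_pr
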