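import Mathlib
import Pool.Agent.Work.MP_67c61c_pr.Defs

open Matrix

namespace Pool.Agent.Work.MP_67c61c_pr

section Sym

variable {d : ℕ} (S : Matrix (Fin d) (Fin d) ℝ)

theorem secondEigenvalue_eq (hS : S.IsHermitian) (hd : 1 < Fintype.card (Fin d)) :
    secondEigenvalue S = hS.eigenvalues₀ ⟨1, hd⟩ := by
  have h := hS.sort_roots_charpoly_eq_eigenvalues₀
  have h2 : (Multiset.map (⇑(RCLike.re : ℝ →+ ℝ)) S.charpoly.roots) = S.charpoly.roots := by
    have : (⇑(RCLike.re : ℝ →+ ℝ)) = id := by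
      ext x; simp
    rw [this, Multiset.map_id]
  rw [h2] at h
  unfold secondEigenvalue
  rw [h]
  have hd' : 1 < d := by simpa using hd
  simp [List.getD, hd']

/-- quadratic form in an orthonormal eigenbasis -/
theorem quad_eq (hS : S.IsHermitian) (x : EuclideanSpace ℝ (Fin d)) :
    x.ofLp ⬝ᵥ (S *ᵥ x.ofLp) = ∑ i, hS.eigenvalues i * (inner ℝ (hS.eigenvectorBasis i) x) ^ 2 := by
  have h1 : x.ofLp ⬝ᵥ (S *ᵥ x.ofLp) = inner ℝ x (WithLp.toLp 2 (S *ᵥ x.ofLp)) := by
    simp [EuclideanSpace.inner_eq_star_dotProduct, dotProduct_comm]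
  rw [h1, ← OrthonormalBasis.sum_inner_mul_inner hS.eigenvectorBasis]
  apply Finset.sum_congr rfl
  intro i _
  have h2 : inner ℝ (hS.eigenvectorBasis i) (WithLp.toLp 2 (S *ᵥ x.ofLp))
      = hS.eigenvalues i * inner ℝ (hS.eigenvectorBasis i) x := by
    have h3 : inner ℝ (hS.eigenvectorBasis i) (WithLp.toLp 2 (S *ᵥ x.ofLp))
        = (hS.eigenvectorBasis i).ofLp ⬝ᵥ (S *ᵥ x.ofLp) := by
      simp [EuclideanSpace.inner_eq_star_dotProduct, dotProduct_comm]
    have hT : Sᵀ = S := by
      have := hS.eq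
      rwa [Matrix.conjTranspose_eq_transpose_of_trivial] at this
    rw [h3, Matrix.dotProduct_mulVec, ← Matrix.mulVec_transpose, hT, hS.mulVec_eigenvectorBasis]
    simp [EuclideanSpace.inner_eq_star_dotProduct, dotProduct_comm]
  rw [h2, real_inner_comm x]
  ring

theorem normsq_eq (hS : S.IsHermitian) (x : EuclideanSpace ℝ (Fin d)) :
    x.ofLp ⬝ᵥ x.ofLp = ∑ i, (inner ℝ (hS.eigenvectorBasis i) x) ^ 2 := by
  have h1 : x.ofLp ⬝ᵥ x.ofLp = ‖x‖ ^ 2 := by
    rw [EuclideanSpace.norm_sq_eq]
    simp [dotProduct, pow_two]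
  rw [h1, ← OrthonormalBasis.sum_sq_norm_inner_right hS.eigenvectorBasis x]
  simp

/-- `i0`, `i1`: positions of the two largest eigenvalues -/
theorem exists_top_two (hS : S.IsHermitian) (hd : 2 ≤ d) :
    ∃ i0 i1 : Fin d, i0 ≠ i1 ∧ hS.eigenvalues i1 = secondEigenvalue S ∧
      hS.eigenvalues i1 ≤ hS.eigenvalues i0 ∧ ∀ i, i ≠ i0 → hS.eigenvalues i ≤ hS.eigenvalues i1 := by
  have hc : Fintype.card (Fin d) = d := Fintype.card_fin d
  have h1 : 1 < Fintype.card (Fin d) := by omega
  have h0 : 0 < Fintype.card (Fin d) := by omega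
  let σ : Fin (Fintype.card (Fin d)) ≃ Fin d := Fintype.equivOfCardEq (Fintype.card_fin _)
  have hσ : ∀ i, hS.eigenvalues i = hS.eigenvalues₀ (σ.symm i) := fun i => rfl
  refine ⟨σ ⟨0, h0⟩, σ ⟨1, h1⟩, ?_, ?_, ?_, ?_⟩
  · intro h
    have := σ.injective h
    simp at this
  · rw [hσ, Equiv.symm_apply_apply, secondEigenvalue_eq S hS h1]
  · rw [hσ, hσ, Equiv.symm_apply_apply, Equiv.symm_apply_apply]
    apply hS.eigenvalues₀_antitone
    simp [Fin.le_def]
  · intro i hi
    rw [hσ, hσ, Equiv.symm_apply_apply]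
    apply hS.eigenvalues₀_antitone
    rw [Fin.le_def]
    simp only
    rcases Nat.eq_zero_or_pos (σ.symm i).val with h | h
    · exfalso
      apply hi
      have : σ.symm i = ⟨0, h0⟩ := Fin.ext h
      rw [← this, Equiv.apply_symm_apply]
    · exact h

/-- There is a nonzero vector orthogonal to `v` on which the form is at least `λ₂`. -/
theorem exists_orth_ge (hS : S.IsHermitian) (hd : 2 ≤ d) (v : Fin d → ℝ) :
    ∃ x : Fin d → ℝ, x ≠ 0 ∧ x ⬝ᵥ v = 0 ∧
      secondEigenvalue S * (x ⬝ᵥ x) ≤ x ⬝ᵥ (S *ᵥ x) := by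
  obtain ⟨i0, i1, hne, h2, hle, -⟩ := exists_top_two S hS hd
  set b := hS.eigenvectorBasis with hb
  -- general combination
  have key : ∀ p q : ℝ, ∃ x : EuclideanSpace ℝ (Fin d), x = p • b i0 + q • b i1 ∧
      x.ofLp ⬝ᵥ x.ofLp = p ^ 2 + q ^ 2 ∧
      x.ofLp ⬝ᵥ (S *ᵥ x.ofLp) = hS.eigenvalues i0 * p ^ 2 + hS.eigenvalues i1 * q ^ 2 := by
    intro p q
    refine ⟨p • b i0 + q • b i1, rfl, ?_, ?_⟩
    · rw [normsq_eq S hS]
      have hin : ∀ i, inner ℝ (hS.eigenvectorBasis i) (p • b i0 + q • b i1)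
          = (if i = i0 then p else 0) + (if i = i1 then q else 0) := by
        intro i
        rw [inner_add_right, inner_smul_right, inner_smul_right]
        simp only [hb, OrthonormalBasis.inner_eq_ite]
        simp
      simp_rw [hin]
      have : ∀ i, ((if i = i0 then p else 0) + (if i = i1 then q else 0)) ^ 2
          = (if i = i0 then p ^ 2 else 0) + (if i = i1 then q ^ 2 else 0) := by
        intro i
        by_cases h0 : i = i0
        · subst h0; simp [hne]
        · simp [h0]
      simp_rw [this]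
      simp [Finset.sum_add_distrib]
    · rw [quad_eq S hS]
      have hin : ∀ i, inner ℝ (hS.eigenvectorBasis i) (p • b i0 + q • b i1)
          = (if i = i0 then p else 0) + (if i = i1 then q else 0) := by
        intro i
        rw [inner_add_right, inner_smul_right, inner_smul_right]
        simp only [hb, OrthonormalBasis.inner_eq_ite]
        simp
      simp_rw [hin]
      have : ∀ i, hS.eigenvalues i * ((if i = i0 then p else 0) + (if i = i1 then q else 0)) ^ 2
          = (if i = i0 then hS.eigenvalues i * p ^ 2 else 0)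
            + (if i = i1 then hS.eigenvalues i * q ^ 2 else 0) := by
        intro i
        by_cases h0 : i = i0
        · subst h0; simp [hne]
        · simp [h0]
      simp_rw [this]
      simp [Finset.sum_add_distrib]
  set a0 := inner ℝ (b i0) (WithLp.toLp 2 v) with ha0
  set a1 := inner ℝ (b i1) (WithLp.toLp 2 v) with ha1
  have horth : ∀ p q : ℝ, p * a0 + q * a1 = 0 → (p • b i0 + q • b i1).ofLp ⬝ᵥ v = 0 := by
    intro p q h
    have : (p • b i0 + q • b i1).ofLp ⬝ᵥ v = inner ℝ (p • b i0 + q • b i1) (WithLp.toLp 2 v) := by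
      simp [EuclideanSpace.inner_eq_star_dotProduct, dotProduct_comm]
    rw [this, inner_add_left, inner_smul_left, inner_smul_left]
    simpa using h
  have fin : ∀ p q : ℝ, p * a0 + q * a1 = 0 → 0 < p ^ 2 + q ^ 2 →
      ∃ x : Fin d → ℝ, x ≠ 0 ∧ x ⬝ᵥ v = 0 ∧
      secondEigenvalue S * (x ⬝ᵥ x) ≤ x ⬝ᵥ (S *ᵥ x) := by
    intro p q hpq hpos
    obtain ⟨x, hx, hn, hq⟩ := key p q
    refine ⟨x.ofLp, ?_, ?_, ?_⟩
    · intro h0
      rw [h0] at hn
      simp at hn
      linarith
    · rw [hx]; exact horth p q hpq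
    · rw [hn, hq, ← h2]
      nlinarith [mul_le_mul_of_nonneg_right hle (sq_nonneg p)]
  by_cases hz : a0 = 0 ∧ a1 = 0
  · exact fin 1 0 (by simp [hz.1]) (by norm_num)
  · refine fin a1 (-a0) (by ring) ?_
    by_contra hcon
    apply hz
    constructor <;> nlinarith [sq_nonneg a0, sq_nonneg a1]

/-- If `v` is a top eigenvector for eigenvalue `1`, the form is at most `λ₂` on `v^⊥`. -/
theorem orth_le (hS : S.IsHermitian) (hd : 2 ≤ d) (v : Fin d → ℝ) (hv : v ≠ 0)
    (hSv : S *ᵥ v = v) (hle1 : ∀ x : Fin d → ℝ, x ⬝ᵥ (S *ᵥ x) ≤ x ⬝ᵥ x)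
    (x : Fin d → ℝ) (hx : x ⬝ᵥ v = 0) :
    x ⬝ᵥ (S *ᵥ x) ≤ secondEigenvalue S * (x ⬝ᵥ x) := by
  obtain ⟨i0, i1, hne, h2, hle, hothers⟩ := exists_top_two S hS hd
  rw [← h2]
  set b := hS.eigenvectorBasis with hb
  have hq := quad_eq S hS (WithLp.toLp 2 x)
  have hn := normsq_eq S hS (WithLp.toLp 2 x)
  simp only at hq hn
  rw [hq, hn, Finset.mul_sum]
  apply Finset.sum_le_sum
  intro i _
  by_cases hi : i = i0
  · subst hi
    rcases eq_or_lt_of_le hle with heq | hlt
    · rw [heq]
    · -- the top eigenvector is proportional to v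
      have htop : hS.eigenvalues i ≤ 1 := by
        have h3 := hle1 (hS.eigenvectorBasis i).ofLp
        rw [hS.mulVec_eigenvectorBasis, dotProduct_smul, smul_eq_mul] at h3
        have h4 : (hS.eigenvectorBasis i).ofLp ⬝ᵥ (hS.eigenvectorBasis i).ofLp = 1 := by
          have := hS.eigenvectorBasis.orthonormal.1 i
          have h5 : (hS.eigenvectorBasis i).ofLp ⬝ᵥ (hS.eigenvectorBasis i).ofLp
              = ‖hS.eigenvectorBasis i‖ ^ 2 := by
            rw [EuclideanSpace.norm_sq_eq]
            simp [dotProduct, pow_two]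
          rw [h5, this]; norm_num
        rw [h4] at h3
        linarith
      have hcoef : ∀ j, j ≠ i → inner ℝ (b j) (WithLp.toLp 2 v) = 0 := by
        intro j hj
        have h6 : inner ℝ (b j) (WithLp.toLp 2 v) = hS.eigenvalues j * inner ℝ (b j) (WithLp.toLp 2 v) := by
          have h3 : inner ℝ (b j) (WithLp.toLp 2 (S *ᵥ v)) = (b j).ofLp ⬝ᵥ (S *ᵥ v) := by
            simp [EuclideanSpace.inner_eq_star_dotProduct, dotProduct_comm]
          have hT : Sᵀ = S := by
            have := hS.eq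
            rwa [Matrix.conjTranspose_eq_transpose_of_trivial] at this
          rw [hSv] at h3
          rw [h3]
          nth_rewrite 1 [← hSv]
          rw [hb, Matrix.dotProduct_mulVec, ← Matrix.mulVec_transpose, hT, hS.mulVec_eigenvectorBasis]
          simp
        have h7 : hS.eigenvalues j < 1 := lt_of_le_of_lt (hothers j hj) (lt_of_lt_of_le hlt htop)
        have h8 : (1 - hS.eigenvalues j) * inner ℝ (b j) (WithLp.toLp 2 v) = 0 := by linarith
        rcases mul_eq_zero.1 h8 with h | h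
        · linarith
        · exact h
      have h9 : inner ℝ (b i) (WithLp.toLp 2 v) ≠ 0 := by
        intro h0
        apply hv
        have : (WithLp.toLp 2 v : EuclideanSpace ℝ (Fin d)) = 0 := by
          rw [← b.sum_repr' (WithLp.toLp 2 v)]
          apply Finset.sum_eq_zero
          intro j _
          by_cases hj : j = i
          · subst hj; rw [h0, zero_smul]
          · rw [hcoef j hj, zero_smul]
        have h10 := congrArg WithLp.ofLp this
        simpa using h10
      have h11 : inner ℝ (b i) (WithLp.toLp 2 x) * inner ℝ (b i) (WithLp.toLp 2 v) = 0 := by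
        have h12 : inner ℝ (WithLp.toLp 2 x) (WithLp.toLp 2 v : EuclideanSpace ℝ (Fin d)) = 0 := by
          have : inner ℝ (WithLp.toLp 2 x) (WithLp.toLp 2 v : EuclideanSpace ℝ (Fin d)) = x ⬝ᵥ v := by
            simp [EuclideanSpace.inner_eq_star_dotProduct, dotProduct_comm]
          rw [this, hx]
        rw [← OrthonormalBasis.sum_inner_mul_inner b] at h12
        rw [Finset.sum_eq_single i] at h12
        · rw [real_inner_comm]
          simpa [real_inner_comm] using h12
        · intro j _ hj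
          rw [hcoef j hj, mul_zero]
        · simp
      have h13 : inner ℝ (b i) (WithLp.toLp 2 x) = 0 := by
        rcases mul_eq_zero.1 h11 with h | h
        · exact h
        · exact absurd h h9
      rw [h13]; simp
  · exact mul_le_mul_of_nonneg_right (hothers i hi) (sq_nonneg _)

end Sym

end Pool.Agent.Work.MP_67c61c_pr
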