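import Mathlib
import Pool.Agent.Work.MP_67c61c_pr.Defs
import Pool.Agent.Work.MP_67c61c_pr.Spectral

open Matrix

namespace Pool.Agent.Work.MP_67c61c_pr

variable {d : ℕ}

/-- squared weighted norm -/
def N (π f : Fin d → ℝ) : ℝ := ∑ i, π i * f i ^ 2

/-- a stochastic matrix with invariant positive weight `π` -/
structure Good (π : Fin d → ℝ) (B : Matrix (Fin d) (Fin d) ℝ) : Prop where
  nonneg : ∀ i j, 0 ≤ B i j
  row_sum : ∀ i, ∑ j, B i j = 1
  pos : ∀ i, 0 < π i
  invariant : ∀ j, ∑ i, π i * B i j = π j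

theorem N_nonneg {π : Fin d → ℝ} (hπ : ∀ i, 0 < π i) (f : Fin d → ℝ) : 0 ≤ N π f :=
  Finset.sum_nonneg fun i _ => mul_nonneg (hπ i).le (sq_nonneg _)

theorem Good.mean {π : Fin d → ℝ} {B : Matrix (Fin d) (Fin d) ℝ} (h : Good π B) (f : Fin d → ℝ) :
    ∑ i, π i * (B *ᵥ f) i = ∑ i, π i * f i := by
  simp only [mulVec, dotProduct, Finset.mul_sum]
  rw [Finset.sum_comm]
  apply Finset.sum_congr rfl
  intro j _
  rw [← h.invariant j, Finset.sum_mul]
  apply Finset.sum_congr rfl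
  intro i _
  ring

/-- exact defect in the contraction property -/
theorem Good.defect {π : Fin d → ℝ} {B : Matrix (Fin d) (Fin d) ℝ} (h : Good π B) (f : Fin d → ℝ) :
    N π f - N π (B *ᵥ f) = ∑ i, π i * ((1 / 2) * ∑ j, ∑ k, B i j * B i k * (f j - f k) ^ 2) := by
  have h1 : N π f = ∑ i, π i * (∑ j, B i j * f j ^ 2) := by
    unfold N
    have := h.mean (fun i => f i ^ 2)
    simpa [mulVec, dotProduct] using this.symm
  rw [h1]
  unfold N
  rw [← Finset.sum_sub_distrib]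
  apply Finset.sum_congr rfl
  intro i _
  rw [← mul_sub]
  congr 1
  have h2 : ∑ j, ∑ k, B i j * B i k * (f j - f k) ^ 2
      = (∑ j, B i j * f j ^ 2) * (∑ k, B i k) + (∑ j, B i j) * (∑ k, B i k * f k ^ 2)
        - 2 * ((∑ j, B i j * f j) * (∑ k, B i k * f k)) := by
    rw [Finset.sum_mul_sum, Finset.sum_mul_sum, Finset.sum_mul_sum, Finset.mul_sum,
      ← Finset.sum_add_distrib, ← Finset.sum_sub_distrib]
    apply Finset.sum_congr rfl
    intro j _
    rw [Finset.mul_sum, ← Finset.sum_add_distrib, ← Finset.sum_sub_distrib]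
    apply Finset.sum_congr rfl
    intro k _
    ring
  rw [h2, h.row_sum i]
  simp only [mulVec, dotProduct]
  ring

theorem Good.contract {π : Fin d → ℝ} {B : Matrix (Fin d) (Fin d) ℝ} (h : Good π B)
    (f : Fin d → ℝ) : N π (B *ᵥ f) ≤ N π f := by
  have := h.defect f
  have h2 : 0 ≤ ∑ i, π i * ((1 / 2) * ∑ j, ∑ k, B i j * B i k * (f j - f k) ^ 2) := by
    apply Finset.sum_nonneg
    intro i _
    apply mul_nonneg (h.pos i).le
    apply mul_nonneg (by norm_num)
    apply Finset.sum_nonneg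
    intro j _
    apply Finset.sum_nonneg
    intro k _
    exact mul_nonneg (mul_nonneg (h.nonneg i j) (h.nonneg i k)) (sq_nonneg _)
  linarith

theorem Good.mul {π : Fin d → ℝ} {B C : Matrix (Fin d) (Fin d) ℝ} (hB : Good π B)
    (hC : Good π C) : Good π (B * C) where
  nonneg i j := by
    rw [Matrix.mul_apply]
    exact Finset.sum_nonneg fun k _ => mul_nonneg (hB.nonneg i k) (hC.nonneg k j)
  row_sum i := by
    simp only [Matrix.mul_apply]
    rw [Finset.sum_comm]
    simp_rw [← Finset.mul_sum, hC.row_sum, mul_one]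
    exact hB.row_sum i
  pos := hB.pos
  invariant j := by
    simp only [Matrix.mul_apply, Finset.mul_sum]
    rw [Finset.sum_comm]
    rw [← hC.invariant j]
    apply Finset.sum_congr rfl
    intro k _
    rw [← hB.invariant k, Finset.sum_mul]
    apply Finset.sum_congr rfl
    intro i _
    ring

theorem Good.one {π : Fin d → ℝ} (hπ : ∀ i, 0 < π i) : Good π (1 : Matrix (Fin d) (Fin d) ℝ) where
  nonneg i j := by
    rw [Matrix.one_apply]; split_ifs <;> norm_num
  row_sum i := by simp [Matrix.one_apply]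
  pos := hπ
  invariant j := by simp [Matrix.one_apply]

theorem Good.pow {π : Fin d → ℝ} {B : Matrix (Fin d) (Fin d) ℝ} (hB : Good π B) (n : ℕ) :
    Good π (B ^ n) := by
  induction n with
  | zero => simpa using Good.one hB.pos
  | succ n ih => rw [pow_succ]; exact ih.mul hB

theorem Good.lazy {π : Fin d → ℝ} {B : Matrix (Fin d) (Fin d) ℝ} (hB : Good π B) {α : ℝ}
    (h0 : 0 ≤ α) (h1 : α ≤ 1) : Good π (lazyChain α B) where
  nonneg i j := by
    unfold lazyChain
    simp only [Matrix.add_apply, Matrix.smul_apply, smul_eq_mul]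
    have h2 := (Good.one hB.pos).nonneg i j
    have h3 := hB.nonneg i j
    have h4 : 0 ≤ 1 - α := by linarith
    positivity
  row_sum i := by
    unfold lazyChain
    simp only [Matrix.add_apply, Matrix.smul_apply, smul_eq_mul]
    rw [Finset.sum_add_distrib, ← Finset.mul_sum, ← Finset.mul_sum, (Good.one hB.pos).row_sum,
      hB.row_sum]
    ring
  pos := hB.pos
  invariant j := by
    unfold lazyChain
    simp only [Matrix.add_apply, Matrix.smul_apply, smul_eq_mul]
    have : ∀ i, π i * (α * (1 : Matrix (Fin d) (Fin d) ℝ) i j + (1 - α) * B i j)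
        = α * (π i * (1 : Matrix (Fin d) (Fin d) ℝ) i j) + (1 - α) * (π i * B i j) := by
      intro i; ring
    simp_rw [this]
    rw [Finset.sum_add_distrib, ← Finset.mul_sum, ← Finset.mul_sum, (Good.one hB.pos).invariant,
      hB.invariant]
    ring

/-! ### Symmetrization -/

/-- the conjugated matrix `D B D⁻¹` -/
noncomputable def conjM (π : Fin d → ℝ) (B : Matrix (Fin d) (Fin d) ℝ) :
    Matrix (Fin d) (Fin d) ℝ :=
  Matrix.diagonal (fun i => √(π i)) * B * Matrix.diagonal (fun i => (√(π i))⁻¹)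

/-- the symmetric matrix similar to `mulRev π B` -/
noncomputable def symM (π : Fin d → ℝ) (B : Matrix (Fin d) (Fin d) ℝ) :
    Matrix (Fin d) (Fin d) ℝ :=
  (conjM π B)ᵀ * conjM π B

theorem symM_isHermitian (π : Fin d → ℝ) (B : Matrix (Fin d) (Fin d) ℝ) :
    (symM π B).IsHermitian := by
  rw [Matrix.IsHermitian, Matrix.conjTranspose_eq_transpose_of_trivial, symM,
    Matrix.transpose_mul, Matrix.transpose_transpose]

theorem diag_mul_diag_inv {π : Fin d → ℝ} (hπ : ∀ i, 0 < π i) :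
    Matrix.diagonal (fun i => √(π i)) * Matrix.diagonal (fun i => (√(π i))⁻¹)
      = (1 : Matrix (Fin d) (Fin d) ℝ) := by
  rw [Matrix.diagonal_mul_diagonal, ← Matrix.diagonal_one]
  congr 1
  ext i
  exact mul_inv_cancel₀ (Real.sqrt_pos.2 (hπ i)).ne'

theorem diag_inv_mul_diag {π : Fin d → ℝ} (hπ : ∀ i, 0 < π i) :
    Matrix.diagonal (fun i => (√(π i))⁻¹) * Matrix.diagonal (fun i => √(π i))
      = (1 : Matrix (Fin d) (Fin d) ℝ) := by
  rw [Matrix.diagonal_mul_diagonal, ← Matrix.diagonal_one]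
  congr 1
  ext i
  exact inv_mul_cancel₀ (Real.sqrt_pos.2 (hπ i)).ne'

theorem charpoly_mulRev {π : Fin d → ℝ} (hπ : ∀ i, 0 < π i) (B : Matrix (Fin d) (Fin d) ℝ) :
    (mulRev π B).charpoly = (symM π B).charpoly := by
  let U : (Matrix (Fin d) (Fin d) ℝ)ˣ :=
    ⟨Matrix.diagonal (fun i => √(π i)), Matrix.diagonal (fun i => (√(π i))⁻¹),
      diag_mul_diag_inv hπ, diag_inv_mul_diag hπ⟩
  rw [← Matrix.charpoly_units_conj U (mulRev π B)]
  congr 1
  have hU : (↑U : Matrix (Fin d) (Fin d) ℝ) = Matrix.diagonal (fun i => √(π i)) := rfl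
  have hU' : (↑U⁻¹ : Matrix (Fin d) (Fin d) ℝ) = Matrix.diagonal (fun i => (√(π i))⁻¹) := rfl
  ext i j
  rw [← Matrix.coe_units_inv, hU, hU', Matrix.mul_diagonal, Matrix.diagonal_mul]
  have e1 : ∀ i j, conjM π B i j = √(π i) * B i j * (√(π j))⁻¹ := by
    intro i j
    unfold conjM
    rw [Matrix.mul_diagonal, Matrix.diagonal_mul]
  have e2 : mulRev π B i j = ∑ k, (π k * B k i / π i) * B k j := by
    unfold mulRev timeReversal
    rw [Matrix.mul_apply]
    rfl
  have e3 : symM π B i j = ∑ k, conjM π B k i * conjM π B k j := by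
    unfold symM
    rw [Matrix.mul_apply]
    rfl
  rw [e2, e3, Finset.mul_sum, Finset.sum_mul]
  apply Finset.sum_congr rfl
  intro k _
  rw [e1, e1]
  have hi := (Real.sqrt_pos.2 (hπ i)).ne'
  have hj := (Real.sqrt_pos.2 (hπ j)).ne'
  have hi2 : π i = √(π i) * √(π i) := (Real.mul_self_sqrt (hπ i).le).symm
  have hk2 : π k = √(π k) * √(π k) := (Real.mul_self_sqrt (hπ k).le).symm
  have hi3 := (hπ i).ne'
  rw [div_eq_mul_inv, hk2]
  have hi4 : √(π i) * (π i)⁻¹ = (√(π i))⁻¹ := by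
    nth_rewrite 2 [hi2]
    rw [mul_inv, ← mul_assoc, mul_inv_cancel₀ hi, one_mul]
  have : √(π i) * (√(π k) * √(π k) * B k i * (π i)⁻¹ * B k j) * (√(π j))⁻¹
      = (√(π i) * (π i)⁻¹) * (√(π k) * √(π k) * B k i * B k j) * (√(π j))⁻¹ := by ring
  rw [this, hi4, Real.sqrt_mul_self (Real.sqrt_nonneg _)]
  ring

theorem second_mulRev {π : Fin d → ℝ} (hπ : ∀ i, 0 < π i) (B : Matrix (Fin d) (Fin d) ℝ) :
    secondEigenvalue (mulRev π B) = secondEigenvalue (symM π B) := by
  unfold secondEigenvalue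
  rw [charpoly_mulRev hπ]

/-- change of variables -/
theorem conjM_mulVec {π : Fin d → ℝ} (hπ : ∀ i, 0 < π i) (B : Matrix (Fin d) (Fin d) ℝ)
    (f : Fin d → ℝ) :
    conjM π B *ᵥ (fun i => √(π i) * f i) = fun i => √(π i) * (B *ᵥ f) i := by
  unfold conjM
  rw [← Matrix.mulVec_mulVec, ← Matrix.mulVec_mulVec]
  have h1 : (Matrix.diagonal (fun i => (√(π i))⁻¹)) *ᵥ (fun i => √(π i) * f i) = f := by
    ext i
    rw [Matrix.mulVec_diagonal, ← mul_assoc, inv_mul_cancel₀ (Real.sqrt_pos.2 (hπ i)).ne', one_mul]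
  rw [h1]
  ext i
  rw [Matrix.mulVec_diagonal]

theorem quad_symM {π : Fin d → ℝ} (hπ : ∀ i, 0 < π i) (B : Matrix (Fin d) (Fin d) ℝ)
    (f : Fin d → ℝ) :
    (fun i => √(π i) * f i) ⬝ᵥ (symM π B *ᵥ (fun i => √(π i) * f i)) = N π (B *ᵥ f) := by
  unfold symM
  rw [← Matrix.mulVec_mulVec, Matrix.dotProduct_mulVec, Matrix.vecMul_transpose,
    conjM_mulVec hπ]
  simp only [dotProduct, N]
  apply Finset.sum_congr rfl
  intro i _
  have : π i = √(π i) * √(π i) := (Real.mul_self_sqrt (hπ i).le).symm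
  nth_rewrite 3 [this]
  ring

theorem dot_self {π : Fin d → ℝ} (hπ : ∀ i, 0 < π i) (f : Fin d → ℝ) :
    (fun i => √(π i) * f i) ⬝ᵥ (fun i => √(π i) * f i) = N π f := by
  simp only [dotProduct, N]
  apply Finset.sum_congr rfl
  intro i _
  have : π i = √(π i) * √(π i) := (Real.mul_self_sqrt (hπ i).le).symm
  nth_rewrite 3 [this]
  ring

theorem dot_sqrt {π : Fin d → ℝ} (hπ : ∀ i, 0 < π i) (f : Fin d → ℝ) :
    (fun i => √(π i) * f i) ⬝ᵥ (fun i => √(π i)) = ∑ i, π i * f i := by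
  simp only [dotProduct]
  apply Finset.sum_congr rfl
  intro i _
  have : π i = √(π i) * √(π i) := (Real.mul_self_sqrt (hπ i).le).symm
  nth_rewrite 3 [this]
  ring

theorem exists_fun {π : Fin d → ℝ} (hπ : ∀ i, 0 < π i) (x : Fin d → ℝ) :
    ∃ f : Fin d → ℝ, x = fun i => √(π i) * f i := by
  refine ⟨fun i => (√(π i))⁻¹ * x i, ?_⟩
  ext i
  rw [← mul_assoc, mul_inv_cancel₀ (Real.sqrt_pos.2 (hπ i)).ne', one_mul]

theorem symM_sqrt {π : Fin d → ℝ} {B : Matrix (Fin d) (Fin d) ℝ} (h : Good π B) :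
    symM π B *ᵥ (fun i => √(π i)) = fun i => √(π i) := by
  unfold symM
  rw [← Matrix.mulVec_mulVec]
  have h1 : conjM π B *ᵥ (fun i => √(π i)) = fun i => √(π i) := by
    have := conjM_mulVec h.pos B (fun _ => 1)
    simp only [mul_one] at this
    rw [this]
    ext i
    simp [mulVec, dotProduct, h.row_sum]
  rw [h1]
  ext j
  simp only [conjM, mulVec, dotProduct, Matrix.transpose_apply, Matrix.mul_diagonal,
    Matrix.diagonal_mul]
  have h2 : ∀ i, √(π i) * B i j * (√(π j))⁻¹ * √(π i) = (π i * B i j) * (√(π j))⁻¹ := by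
    intro i
    have : π i = √(π i) * √(π i) := (Real.mul_self_sqrt (h.pos i).le).symm
    nth_rewrite 3 [this]
    ring
  simp_rw [h2]
  rw [← Finset.sum_mul, h.invariant j]
  have hj := (Real.sqrt_pos.2 (h.pos j)).ne'
  have : π j = √(π j) * √(π j) := (Real.mul_self_sqrt (h.pos j).le).symm
  nth_rewrite 1 [this]
  field_simp

/-- `‖B f‖² ≤ λ₂ ‖f‖²` on mean-zero functions -/
theorem Good.upper {π : Fin d → ℝ} {B : Matrix (Fin d) (Fin d) ℝ} (h : Good π B) (hd : 2 ≤ d)
    (f : Fin d → ℝ) (hf : ∑ i, π i * f i = 0) :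
    N π (B *ᵥ f) ≤ secondEigenvalue (mulRev π B) * N π f := by
  rw [second_mulRev h.pos, ← quad_symM h.pos, ← dot_self h.pos f]
  apply orth_le (symM π B) (symM_isHermitian π B) hd (fun i => √(π i))
  · intro h0
    have := congrFun h0 ⟨0, by omega⟩
    simp only [Pi.zero_apply] at this
    exact (Real.sqrt_pos.2 (h.pos _)).ne' this
  · exact symM_sqrt h
  · intro x
    obtain ⟨g, rfl⟩ := exists_fun h.pos x
    rw [quad_symM h.pos, dot_self h.pos]
    exact h.contract g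
  · rw [dot_sqrt h.pos, hf]

/-- a nonzero mean-zero function with `λ₂ ‖f‖² ≤ ‖B f‖²` -/
theorem Good.lower {π : Fin d → ℝ} {B : Matrix (Fin d) (Fin d) ℝ} (h : Good π B) (hd : 2 ≤ d) :
    ∃ f : Fin d → ℝ, 0 < N π f ∧ ∑ i, π i * f i = 0 ∧
      secondEigenvalue (mulRev π B) * N π f ≤ N π (B *ᵥ f) := by
  obtain ⟨x, hx0, hxv, hx⟩ := exists_orth_ge (symM π B) (symM_isHermitian π B) hd
    (fun i => √(π i))
  obtain ⟨f, rfl⟩ := exists_fun h.pos x
  refine ⟨f, ?_, ?_, ?_⟩
  · rw [← dot_self h.pos]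
    have h0 : 0 ≤ (fun i => √(π i) * f i) ⬝ᵥ (fun i => √(π i) * f i) :=
      Finset.sum_nonneg fun i _ => mul_self_nonneg _
    rcases h0.lt_or_eq with h1 | h1
    · exact h1
    · exact absurd (dotProduct_self_eq_zero.1 h1.symm) hx0
  · rw [← dot_sqrt h.pos]; exact hxv
  · rw [second_mulRev h.pos, ← quad_symM h.pos, ← dot_self h.pos f]
    exact hx

theorem Good.second_le {π : Fin d → ℝ} {B : Matrix (Fin d) (Fin d) ℝ} (h : Good π B) (hd : 2 ≤ d)
    {c : ℝ} (hc : ∀ f : Fin d → ℝ, ∑ i, π i * f i = 0 → N π (B *ᵥ f) ≤ c * N π f) :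
    secondEigenvalue (mulRev π B) ≤ c := by
  obtain ⟨f, hpos, hf, hle⟩ := h.lower hd
  have := hle.trans (hc f hf)
  exact le_of_mul_le_mul_right this hpos

theorem Good.second_le_one {π : Fin d → ℝ} {B : Matrix (Fin d) (Fin d) ℝ} (h : Good π B)
    (hd : 2 ≤ d) : secondEigenvalue (mulRev π B) ≤ 1 :=
  h.second_le hd fun f _ => by rw [one_mul]; exact h.contract f

theorem Good.second_nonneg {π : Fin d → ℝ} {B : Matrix (Fin d) (Fin d) ℝ} (h : Good π B)
    (hd : 2 ≤ d) : 0 ≤ secondEigenvalue (mulRev π B) := by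
  obtain ⟨f, hpos, hf, -⟩ := h.lower hd
  have h1 := h.upper hd f hf
  have h2 := N_nonneg h.pos (B *ᵥ f)
  by_contra hcon
  push Not at hcon
  nlinarith

end Pool.Agent.Work.MP_67c61c_pr
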