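import Mathlib
import Pool.Agent.Work.MP_67c61c_pr.Defs
import Pool.Agent.Work.MP_67c61c_pr.Chain

open Matrix

namespace Pool.Agent.Work.MP_67c61c_pr

variable {d : ℕ}

theorem gap_nonneg {π : Fin d → ℝ} {B : Matrix (Fin d) (Fin d) ℝ} (h : Good π B) (hd : 2 ≤ d) :
    0 ≤ spectralGap (mulRev π B) := by
  unfold spectralGap
  linarith [h.second_le_one hd]

theorem gap_le_one {π : Fin d → ℝ} {B : Matrix (Fin d) (Fin d) ℝ} (h : Good π B) (hd : 2 ≤ d) :
    spectralGap (mulRev π B) ≤ 1 := by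
  unfold spectralGap
  linarith [h.second_nonneg hd]

theorem gapSet_le_one {π : Fin d → ℝ} {M : Matrix (Fin d) (Fin d) ℝ} (h : Good π M) (hd : 2 ≤ d)
    {x : ℝ} (hx : x ∈ gapSet π M) : x ≤ 1 := by
  obtain ⟨k, hk, rfl⟩ := hx
  have hk' : (1 : ℝ) ≤ k := by exact_mod_cast hk
  rw [div_le_one (by linarith)]
  exact (gap_le_one (h.pow k) hd).trans hk'

theorem gapSet_bdd {π : Fin d → ℝ} {M : Matrix (Fin d) (Fin d) ℝ} (h : Good π M) (hd : 2 ≤ d) :
    BddAbove (gapSet π M) :=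
  ⟨1, fun _ hx => gapSet_le_one h hd hx⟩

theorem gapSet_nonempty (π : Fin d → ℝ) (M : Matrix (Fin d) (Fin d) ℝ) :
    (gapSet π M).Nonempty :=
  ⟨_, 1, le_rfl, rfl⟩

theorem lazy_pow_mulVec (M : Matrix (Fin d) (Fin d) ℝ) (α : ℝ) (n : ℕ) (f : Fin d → ℝ) (i : Fin d) :
    ((lazyChain α M ^ n) *ᵥ f) i = ∑ m ∈ Finset.range (n + 1),
      ((1 - α) ^ m * α ^ (n - m) * (n.choose m : ℝ)) * ((M ^ m) *ᵥ f) i := by
  have hc : Commute ((1 - α) • M) (α • (1 : Matrix (Fin d) (Fin d) ℝ)) := by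
    apply Commute.smul_right
    apply Commute.smul_left
    exact Commute.one_right M
  have h1 : lazyChain α M = (1 - α) • M + α • (1 : Matrix (Fin d) (Fin d) ℝ) := by
    unfold lazyChain; rw [add_comm]
  rw [h1, hc.add_pow, Matrix.sum_mulVec]
  simp only [Finset.sum_apply]
  apply Finset.sum_congr rfl
  intro m _
  rw [smul_pow, smul_pow, one_pow]
  have h2 : (1 - α) ^ m • M ^ m * α ^ (n - m) • (1 : Matrix (Fin d) (Fin d) ℝ)
      * (n.choose m : Matrix (Fin d) (Fin d) ℝ)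
      = ((1 - α) ^ m * α ^ (n - m) * (n.choose m : ℝ)) • M ^ m := by
    rw [Matrix.smul_mul, Matrix.mul_smul, mul_one, smul_smul, Matrix.smul_mul, ← nsmul_eq_mul',
      ← Nat.cast_smul_eq_nsmul ℝ, smul_smul]
  rw [h2, Matrix.smul_mulVec, Pi.smul_apply, smul_eq_mul]

theorem weights_sum (α : ℝ) (n : ℕ) :
    ∑ m ∈ Finset.range (n + 1), ((1 - α) ^ m * α ^ (n - m) * (n.choose m : ℝ)) = 1 := by
  have := add_pow (1 - α) α n
  rw [← this]
  simp

theorem weights_sum_half (α : ℝ) (n : ℕ) :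
    ∑ m ∈ Finset.range (n + 1), ((1 - α) ^ m * α ^ (n - m) * (n.choose m : ℝ)) * (1 / 2) ^ m
      = (1 - (1 - α) / 2) ^ n := by
  have := add_pow ((1 - α) / 2) α n
  have h2 : (1 - α) / 2 + α = 1 - (1 - α) / 2 := by ring
  rw [h2] at this
  rw [this]
  apply Finset.sum_congr rfl
  intro m _
  rw [div_pow, div_pow, one_pow]
  ring

theorem N_lazy_le {π : Fin d → ℝ} {M : Matrix (Fin d) (Fin d) ℝ} (h : Good π M) {α : ℝ}
    (h0 : 0 ≤ α) (h1 : α ≤ 1) (n : ℕ) (f : Fin d → ℝ) :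
    N π ((lazyChain α M ^ n) *ᵥ f) ≤ ∑ m ∈ Finset.range (n + 1),
      ((1 - α) ^ m * α ^ (n - m) * (n.choose m : ℝ)) * N π ((M ^ m) *ᵥ f) := by
  unfold N
  simp_rw [Finset.mul_sum]
  rw [Finset.sum_comm]
  apply Finset.sum_le_sum
  intro i _
  have h2 : ((lazyChain α M ^ n) *ᵥ f) i ^ 2 ≤ ∑ m ∈ Finset.range (n + 1),
      ((1 - α) ^ m * α ^ (n - m) * (n.choose m : ℝ)) * ((M ^ m) *ᵥ f) i ^ 2 := by
    rw [lazy_pow_mulVec]
    have hconv : ConvexOn ℝ Set.univ (fun x : ℝ => x ^ 2) := Even.convexOn_pow (by norm_num)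
    have := hconv.map_sum_le (t := Finset.range (n + 1))
      (w := fun m => ((1 - α) ^ m * α ^ (n - m) * (n.choose m : ℝ)))
      (p := fun m => ((M ^ m) *ᵥ f) i) (fun m _ => by
        have : 0 ≤ 1 - α := by linarith
        positivity) (weights_sum α n) (fun _ _ => Set.mem_univ _)
    simpa [smul_eq_mul] using this
  have h3 := mul_le_mul_of_nonneg_left h2 (h.pos i).le
  refine h3.trans (le_of_eq ?_)
  rw [Finset.mul_sum]
  apply Finset.sum_congr rfl
  intro m _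
  ring

theorem N_pow_le {π : Fin d → ℝ} {M : Matrix (Fin d) (Fin d) ℝ} (h : Good π M) (hd : 2 ≤ d)
    {k m : ℕ} (hkm : k ≤ m) (f : Fin d → ℝ) (hf : ∑ i, π i * f i = 0) :
    N π ((M ^ m) *ᵥ f) ≤ secondEigenvalue (mulRev π (M ^ k)) * N π f := by
  obtain ⟨l, rfl⟩ := Nat.exists_eq_add_of_le hkm
  rw [pow_add, ← Matrix.mulVec_mulVec]
  have h1 := (h.pow k).upper hd ((M ^ l) *ᵥ f) (by rw [(h.pow l).mean, hf])
  refine h1.trans ?_
  exact mul_le_mul_of_nonneg_left ((h.pow l).contract f) ((h.pow k).second_nonneg hd)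

theorem N_pow_le' {π : Fin d → ℝ} {M : Matrix (Fin d) (Fin d) ℝ} (h : Good π M) (hd : 2 ≤ d)
    {k : ℕ} (hk : 1 ≤ k) (m : ℕ) (f : Fin d → ℝ) (hf : ∑ i, π i * f i = 0) :
    N π ((M ^ m) *ᵥ f) ≤ (secondEigenvalue (mulRev π (M ^ k)) +
      (1 - secondEigenvalue (mulRev π (M ^ k))) * (2 ^ (k - 1) * (1 / 2) ^ m)) * N π f := by
  have hl1 := (h.pow k).second_le_one hd
  have hl0 := (h.pow k).second_nonneg hd
  have hN := N_nonneg h.pos f
  rcases le_or_gt k m with hkm | hkm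
  · refine (N_pow_le h hd hkm f hf).trans ?_
    apply mul_le_mul_of_nonneg_right _ hN
    have : 0 ≤ (1 - secondEigenvalue (mulRev π (M ^ k))) * (2 ^ (k - 1) * (1 / 2) ^ m) := by
      apply mul_nonneg (by linarith); positivity
    linarith
  · refine ((h.pow m).contract f).trans ?_
    have h2 : (1 : ℝ) ≤ 2 ^ (k - 1) * (1 / 2) ^ m := by
      have hm : m ≤ k - 1 := by omega
      obtain ⟨l, hl⟩ := Nat.exists_eq_add_of_le hm
      rw [hl, pow_add, one_div, inv_pow]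
      have : (2 : ℝ) ^ m * 2 ^ l * (2 ^ m)⁻¹ = 2 ^ l := by
        have : (2 : ℝ) ^ m ≠ 0 := by positivity
        field_simp
      rw [this]
      exact one_le_pow₀ (by norm_num)
    nlinarith [mul_le_mul_of_nonneg_left h2 (by linarith : 0 ≤ 1 - secondEigenvalue (mulRev π (M ^ k)))]

/-- spectral estimate for powers of the lazy chain -/
theorem second_lazy_le {π : Fin d → ℝ} {M : Matrix (Fin d) (Fin d) ℝ} (h : Good π M) (hd : 2 ≤ d)
    {α : ℝ} (h0 : 0 ≤ α) (h1 : α ≤ 1) {k : ℕ} (hk : 1 ≤ k) (n : ℕ) :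
    secondEigenvalue (mulRev π (lazyChain α M ^ n)) ≤ secondEigenvalue (mulRev π (M ^ k)) +
      (1 - secondEigenvalue (mulRev π (M ^ k))) * (2 ^ (k - 1) * (1 - (1 - α) / 2) ^ n) := by
  apply ((h.lazy h0 h1).pow n).second_le hd
  intro f hf
  refine (N_lazy_le h h0 h1 n f).trans ?_
  set lam := secondEigenvalue (mulRev π (M ^ k)) with hlam
  have h2 : ∀ m ∈ Finset.range (n + 1),
      ((1 - α) ^ m * α ^ (n - m) * (n.choose m : ℝ)) * N π ((M ^ m) *ᵥ f)
      ≤ ((1 - α) ^ m * α ^ (n - m) * (n.choose m : ℝ)) *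
        ((lam + (1 - lam) * (2 ^ (k - 1) * (1 / 2) ^ m)) * N π f) := by
    intro m _
    apply mul_le_mul_of_nonneg_left (N_pow_le' h hd hk m f hf)
    have : 0 ≤ 1 - α := by linarith
    positivity
  refine (Finset.sum_le_sum h2).trans (le_of_eq ?_)
  have h3 : ∀ m, ((1 - α) ^ m * α ^ (n - m) * (n.choose m : ℝ)) *
        ((lam + (1 - lam) * (2 ^ (k - 1) * (1 / 2) ^ m)) * N π f)
      = (lam * N π f) * ((1 - α) ^ m * α ^ (n - m) * (n.choose m : ℝ))
        + ((1 - lam) * 2 ^ (k - 1) * N π f) *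
          (((1 - α) ^ m * α ^ (n - m) * (n.choose m : ℝ)) * (1 / 2) ^ m) := by
    intro m; ring
  simp_rw [h3]
  rw [Finset.sum_add_distrib, ← Finset.mul_sum, ← Finset.mul_sum, weights_sum, weights_sum_half]
  ring

theorem exp_bound {k : ℕ} (hk : 1 ≤ k) : (2 : ℝ) ^ (k - 1) * Real.exp (-k) ≤ 2 / 5 := by
  have h1 : Real.exp (-1) ≤ 2 / 5 := by
    rw [Real.exp_neg, inv_le_comm₀ (Real.exp_pos 1) (by norm_num)]
    have := Real.exp_one_gt_d9
    linarith
  obtain ⟨l, rfl⟩ := Nat.exists_eq_add_of_le hk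
  have h2 : Real.exp (-((1 + l : ℕ) : ℝ)) = Real.exp (-1) * Real.exp (-1) ^ l := by
    rw [← Real.exp_nat_mul, ← Real.exp_add]
    congr 1
    push_cast; ring
  rw [h2]
  have h3 : (2 : ℝ) ^ (1 + l - 1) * (Real.exp (-1) * Real.exp (-1) ^ l)
      = Real.exp (-1) * (2 * Real.exp (-1)) ^ l := by
    rw [mul_pow]
    have : 1 + l - 1 = l := by omega
    rw [this]; ring
  rw [h3]
  have h4 : (2 * Real.exp (-1)) ^ l ≤ 1 := by
    apply pow_le_one₀
    · positivity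
    · linarith
  calc Real.exp (-1) * (2 * Real.exp (-1)) ^ l ≤ Real.exp (-1) * 1 :=
        mul_le_mul_of_nonneg_left h4 (Real.exp_pos _).le
    _ ≤ 2 / 5 := by linarith

/-- The linear, dimension-free comparison. -/
theorem main_bound {π : Fin d → ℝ} {M : Matrix (Fin d) (Fin d) ℝ} (h : Good π M) (hd : 2 ≤ d)
    {α : ℝ} (h0 : 0 < α) (h1 : α < 1) :
    (1 - α) / 5 * pseudoGap π M ≤ pseudoGap π (lazyChain α M) := by
  have hb : 0 < 1 - α := by linarith
  have hLb := gapSet_bdd (h.lazy h0.le h1.le) hd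
  have key : ∀ x ∈ gapSet π M, x ≤ 5 / (1 - α) * pseudoGap π (lazyChain α M) := by
    rintro x ⟨k, hk, rfl⟩
    set n := ⌈2 * (k : ℝ) / (1 - α)⌉₊ with hn
    have hk' : (1 : ℝ) ≤ k := by exact_mod_cast hk
    have hn1 : 2 * (k : ℝ) / (1 - α) ≤ n := Nat.le_ceil _
    have hn2 : (n : ℝ) < 2 * (k : ℝ) / (1 - α) + 1 := Nat.ceil_lt_add_one (by positivity)
    have hn3 : (n : ℝ) ≤ 3 * k / (1 - α) := by
      have : 1 ≤ (k : ℝ) / (1 - α) := by
        rw [le_div_iff₀ hb]; linarith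
      have e : 3 * (k : ℝ) / (1 - α) = 2 * (k : ℝ) / (1 - α) + k / (1 - α) := by ring
      rw [e]; linarith
    have hnpos : (0 : ℝ) < n := lt_of_lt_of_le (by positivity) hn1
    have hn1' : 1 ≤ n := by
      have : 0 < n := by exact_mod_cast hnpos
      omega
    have h2 := second_lazy_le h hd h0.le h1.le hk n
    have h3 : (1 - (1 - α) / 2) ^ n ≤ Real.exp (-k) := by
      have h4 : 1 - (1 - α) / 2 ≤ Real.exp (-((1 - α) / 2)) := Real.one_sub_le_exp_neg _
      have h5 : (1 - (1 - α) / 2) ^ n ≤ Real.exp (-((1 - α) / 2)) ^ n :=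
        pow_le_pow_left₀ (by linarith) h4 n
      refine h5.trans ?_
      rw [← Real.exp_nat_mul]
      apply Real.exp_le_exp.2
      have : (k : ℝ) ≤ n * ((1 - α) / 2) := by
        rw [div_le_iff₀ hb] at hn1
        linarith
      linarith
    have hl1 := (h.pow k).second_le_one hd
    have h6 : (2 : ℝ) ^ (k - 1) * (1 - (1 - α) / 2) ^ n ≤ 2 / 5 :=
      (mul_le_mul_of_nonneg_left h3 (by positivity)).trans (exp_bound hk)
    have h7 : 3 / 5 * spectralGap (mulRev π (M ^ k)) ≤ spectralGap (mulRev π (lazyChain α M ^ n)) := by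
      unfold spectralGap
      nlinarith [mul_le_mul_of_nonneg_left h6 (by linarith : 0 ≤ 1 - secondEigenvalue (mulRev π (M ^ k)))]
    have h8 : spectralGap (mulRev π (lazyChain α M ^ n)) / n ≤ pseudoGap π (lazyChain α M) :=
      le_csSup hLb ⟨n, hn1', rfl⟩
    have hg := gap_nonneg (h.pow k) hd
    have hg2 := gap_nonneg ((h.lazy h0.le h1.le).pow n) hd
    -- gap(M^k)/k ≤ 5/(1-α) * gap(L^n)/n
    have h9 : spectralGap (mulRev π (M ^ k)) / k
        ≤ 5 / (1 - α) * (spectralGap (mulRev π (lazyChain α M ^ n)) / n) := by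
      rw [div_le_iff₀ (by linarith)]
      have h10 : 5 / (1 - α) * (spectralGap (mulRev π (lazyChain α M ^ n)) / n) * k
          = 5 / 3 * spectralGap (mulRev π (lazyChain α M ^ n)) * ((3 * k / (1 - α)) / n) := by
        field_simp
      rw [h10]
      have h11 : 1 ≤ (3 * k / (1 - α)) / n := by
        rw [le_div_iff₀ hnpos, one_mul]; exact hn3
      nlinarith [mul_le_mul_of_nonneg_left h11 (by positivity :
        0 ≤ 5 / 3 * spectralGap (mulRev π (lazyChain α M ^ n)))]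
    refine h9.trans ?_
    apply mul_le_mul_of_nonneg_left h8 (by positivity)
  have h12 : pseudoGap π M ≤ 5 / (1 - α) * pseudoGap π (lazyChain α M) :=
    csSup_le (gapSet_nonempty π M) key
  have h13 := mul_le_mul_of_nonneg_left h12 (by positivity : 0 ≤ (1 - α) / 5)
  refine h13.trans (le_of_eq ?_)
  field_simp

end Pool.Agent.Work.MP_67c61c_pr
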