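import Mathlib
import Pool.Agent.Work.MP_67c61c_pr.Defs
import Pool.Agent.Work.MP_67c61c_pr.Chain
import Pool.Agent.Work.MP_67c61c_pr.Main

open Matrix

namespace Pool.Agent.Work.MP_67c61c_pr

variable {d : ℕ}

theorem invariant_pow {π : Fin d → ℝ} {M : Matrix (Fin d) (Fin d) ℝ}
    (h : ∀ j, ∑ i, π i * M i j = π j) (n : ℕ) (j : Fin d) : ∑ i, π i * (M ^ n) i j = π j := by
  induction n generalizing j with
  | zero => simp [Matrix.one_apply]
  | succ n ih =>
    rw [pow_succ]
    simp only [Matrix.mul_apply, Finset.mul_sum]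
    rw [Finset.sum_comm]
    rw [← h j]
    apply Finset.sum_congr rfl
    intro k _
    rw [← ih k]
    rw [Finset.sum_mul]
    apply Finset.sum_congr rfl
    intro i _
    ring

theorem IsErgodic.pow_nonneg {M : Matrix (Fin d) (Fin d) ℝ} (h : IsErgodic M) (n : ℕ) (i j : Fin d) :
    0 ≤ (M ^ n) i j := Matrix.pow_apply_nonneg h.nonneg n i j

theorem IsErgodic.good {π : Fin d → ℝ} {M : Matrix (Fin d) (Fin d) ℝ} (h : IsErgodic M)
    (hπ : IsStationary π M) : Good π M where
  nonneg := h.nonneg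
  row_sum := h.row_sum
  pos i := by
    obtain ⟨j, hj⟩ : ∃ j, 0 < π j := by
      by_contra hcon
      push Not at hcon
      have : ∑ i, π i ≤ 0 := Finset.sum_nonpos fun i _ => hcon i
      rw [hπ.sum_one] at this
      linarith
    obtain ⟨n, -, hn⟩ := h.irreducible j i
    rw [← invariant_pow hπ.invariant n i]
    refine lt_of_lt_of_le (mul_pos hj hn) ?_
    exact Finset.single_le_sum (f := fun k => π k * (M ^ n) k i)
      (fun k _ => mul_nonneg (hπ.nonneg k) (h.pow_nonneg n k i)) (Finset.mem_univ j)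
  invariant := hπ.invariant

theorem IsErgodic.pow_add_pos {M : Matrix (Fin d) (Fin d) ℝ} (h : IsErgodic M) {m n : ℕ}
    {i j k : Fin d} (h1 : 0 < (M ^ m) i j) (h2 : 0 < (M ^ n) j k) : 0 < (M ^ (m + n)) i k := by
  rw [pow_add, Matrix.mul_apply]
  refine lt_of_lt_of_le (mul_pos h1 h2) ?_
  exact Finset.single_le_sum (f := fun l => (M ^ m) i l * (M ^ n) l k)
    (fun l _ => mul_nonneg (h.pow_nonneg m i l) (h.pow_nonneg n l k)) (Finset.mem_univ j)

/-- eventually positive return probabilities -/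
theorem IsErgodic.return_pos {M : Matrix (Fin d) (Fin d) ℝ} (h : IsErgodic M) (i : Fin d) :
    ∃ n0, ∀ n ≥ n0, 0 < (M ^ n) i i := by
  set R : Set ℕ := {n | 1 ≤ n ∧ 0 < (M ^ n) i i} with hR
  have hg : Nat.setGcd R = 1 := by
    apply h.aperiodic i
    intro n hn hpos
    exact Nat.setGcd_dvd_of_mem (show n ∈ R from ⟨hn, hpos⟩)
  obtain ⟨n0, hn0⟩ := Nat.exists_mem_closure_of_ge R
  have hcl : ∀ x ∈ AddSubmonoid.closure R, 0 < (M ^ x) i i := by
    intro x hx
    induction hx using AddSubmonoid.closure_induction with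
    | mem x hx => exact hx.2
    | zero => simp
    | add x y _ _ hx hy => exact h.pow_add_pos hx hy
  exact ⟨n0, fun n hn => hcl n (hn0 n hn (by rw [hg]; exact one_dvd _))⟩

/-- an ergodic matrix is primitive -/
theorem IsErgodic.exists_pos_pow {M : Matrix (Fin d) (Fin d) ℝ} (h : IsErgodic M) :
    ∃ n, 1 ≤ n ∧ ∀ i j, 0 < (M ^ n) i j := by
  choose r hr using h.return_pos
  choose s hs1 hs using h.irreducible
  refine ⟨∑ i, r i + ∑ i, ∑ j, s i j + 1, by omega, fun i j => ?_⟩
  have h1 : s i j ≤ ∑ i, ∑ j, s i j := by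
    calc s i j ≤ ∑ j, s i j := Finset.single_le_sum (fun _ _ => Nat.zero_le _) (Finset.mem_univ j)
      _ ≤ ∑ i, ∑ j, s i j :=
        Finset.single_le_sum (f := fun i => ∑ j, s i j) (fun _ _ => Nat.zero_le _) (Finset.mem_univ i)
  have h2 : r i ≤ ∑ i, r i := Finset.single_le_sum (fun _ _ => Nat.zero_le _) (Finset.mem_univ i)
  obtain ⟨l, hl⟩ := Nat.exists_eq_add_of_le
    (show s i j ≤ ∑ i, r i + ∑ i, ∑ j, s i j + 1 by omega)
  rw [hl, add_comm]
  apply h.pow_add_pos (hr i l (by omega)) (hs i j)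

theorem IsErgodic.exists_gap_pos {π : Fin d → ℝ} {M : Matrix (Fin d) (Fin d) ℝ} (h : IsErgodic M)
    (hπ : IsStationary π M) (hd : 2 ≤ d) :
    ∃ n, 1 ≤ n ∧ 0 < spectralGap (mulRev π (M ^ n)) := by
  obtain ⟨n, hn, hpos⟩ := h.exists_pos_pow
  refine ⟨n, hn, ?_⟩
  have hG := (h.good hπ).pow n
  have hle := hG.second_le_one hd
  unfold spectralGap
  rcases hle.lt_or_eq with hlt | heq
  · linarith
  · exfalso
    obtain ⟨f, hN, hf, hle2⟩ := hG.lower hd
    rw [heq, one_mul] at hle2
    have hdef := hG.defect f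
    have hdef0 : N π f - N π ((M ^ n) *ᵥ f) ≤ 0 := by linarith
    rw [hdef] at hdef0
    have hterm : ∀ i j k, 0 ≤ (M ^ n) i j * (M ^ n) i k * (f j - f k) ^ 2 := fun i j k =>
      mul_nonneg (mul_nonneg (hpos i j).le (hpos i k).le) (sq_nonneg _)
    -- all values of f agree
    have hall : ∀ j k, f j = f k := by
      intro j k
      by_contra hne
      have hi : Fin d := j
      have h1 : 0 < ∑ i, π i * ((1 / 2) * ∑ j, ∑ k, (M ^ n) i j * (M ^ n) i k * (f j - f k) ^ 2) := by
        apply Finset.sum_pos'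
        · intro i _
          apply mul_nonneg (hG.pos i).le
          apply mul_nonneg (by norm_num)
          exact Finset.sum_nonneg fun j _ => Finset.sum_nonneg fun k _ => hterm i j k
        · refine ⟨j, Finset.mem_univ _, ?_⟩
          apply mul_pos (hG.pos j)
          apply mul_pos (by norm_num)
          apply Finset.sum_pos'
          · intro a _
            exact Finset.sum_nonneg fun k _ => hterm j a k
          · refine ⟨j, Finset.mem_univ _, ?_⟩
            apply Finset.sum_pos'
            · intro b _; exact hterm j j b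
            · refine ⟨k, Finset.mem_univ _, ?_⟩
              have h3 : f j - f k ≠ 0 := sub_ne_zero.2 hne
              have h4 : 0 < (f j - f k) ^ 2 := by positivity
              exact mul_pos (mul_pos (hpos j j) (hpos j k)) h4
      linarith
    -- hence f = 0
    have hz : ∀ i, f i = 0 := by
      intro i
      have h5 : ∑ j, π j * f j = f i := by
        have : ∀ j, π j * f j = π j * f i := fun j => by rw [hall j i]
        simp_rw [this]
        rw [← Finset.sum_mul, hπ.sum_one, one_mul]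
      rw [← h5, hf]
    have : N π f = 0 := by
      unfold N
      apply Finset.sum_eq_zero
      intro i _
      rw [hz i]; ring
    linarith

/-- the pseudo spectral gap of an ergodic chain is a maximum and lies in `(0,1]` -/
theorem IsErgodic.isGreatest {π : Fin d → ℝ} {M : Matrix (Fin d) (Fin d) ℝ} (h : IsErgodic M)
    (hπ : IsStationary π M) (hd : 2 ≤ d) :
    0 < pseudoGap π M ∧ pseudoGap π M ≤ 1 ∧ IsGreatest (gapSet π M) (pseudoGap π M) := by
  have hG := h.good hπ
  have hb := gapSet_bdd hG hd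
  obtain ⟨n, hn, hpos⟩ := h.exists_gap_pos hπ hd
  have hn' : (0 : ℝ) < n := by exact_mod_cast (show 0 < n by omega)
  have h0 : 0 < pseudoGap π M :=
    lt_of_lt_of_le (div_pos hpos hn') (le_csSup hb ⟨n, hn, rfl⟩)
  refine ⟨h0, csSup_le (gapSet_nonempty π M) fun x hx => gapSet_le_one hG hd hx, ?_,
    fun x hx => le_csSup hb hx⟩
  -- attained
  by_contra hcon
  -- choose K with 1/K small
  obtain ⟨K, hK⟩ := exists_nat_gt (2 / pseudoGap π M)
  -- the maximum over k ≤ K
  set F : ℕ → ℝ := fun k => spectralGap (mulRev π (M ^ k)) / k with hF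
  have hne : (Finset.Icc 1 (max K 1)).Nonempty := ⟨1, by simp⟩
  obtain ⟨k0, hk0, hmax⟩ := Finset.exists_max_image (Finset.Icc 1 (max K 1)) F hne
  have hk0' : 1 ≤ k0 := (Finset.mem_Icc.1 hk0).1
  have hlt : F k0 < pseudoGap π M := by
    refine lt_of_le_of_ne (le_csSup hb ⟨k0, hk0', rfl⟩) ?_
    intro heq
    exact hcon ⟨k0, hk0', heq.symm⟩
  have hall : ∀ x ∈ gapSet π M, x ≤ max (F k0) (pseudoGap π M / 2) := by
    rintro x ⟨k, hk, rfl⟩
    rcases le_or_gt k (max K 1) with hle | hgt
    · exact le_max_of_le_left (hmax k (Finset.mem_Icc.2 ⟨hk, hle⟩))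
    · apply le_max_of_le_right
      have hk' : (0 : ℝ) < k := by exact_mod_cast (show 0 < k by omega)
      have hKk : (K : ℝ) ≤ k := by
        have : K ≤ k := (le_max_left K 1).trans hgt.le
        exact_mod_cast this
      rw [div_le_iff₀ hk']
      have h1 := gap_le_one (hG.pow k) hd
      have h2 : 2 / pseudoGap π M < k := lt_of_lt_of_le hK hKk
      rw [div_lt_iff₀ h0] at h2
      linarith
  have h3 : pseudoGap π M ≤ max (F k0) (pseudoGap π M / 2) :=
    csSup_le (gapSet_nonempty π M) hall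
  have h4 : max (F k0) (pseudoGap π M / 2) < pseudoGap π M := max_lt hlt (by linarith)
  linarith

end Pool.Agent.Work.MP_67c61c_pr
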